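import Pool.Agent.helper52.IR.Spec

/-!
# Project IR, row ir:FWD: the forward function
-/

open scoped MatrixGroups ContDiff Topology UpperHalfPlane ComplexConjugate
open UpperHalfPlane MeasureTheory Filter Set

set_option autoImplicit false

namespace Pool.Agent.IR

open Pool.Agent.RS
open Pool.Agent.MS (bq BB BA SF pf)
open Pool.Agent.HV (FW)
open Pool.Agent.EN (XG MG mkX mkM fl pr)
open Pool.Agent.ER (Low LowJ)

noncomputable section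

/-- the points of `Low` which the flow moves out of `B` -/
theorem FWD_mass (hXFL : EN.XFL_stmt) (hFLI : FLI_stmt) {Γ : Subgroup SL(2, ℝ)} {μ : Measure (XG Γ)} (hΓ : QU.SurfaceGroup Γ) (hμ : IsProbabilityMeasure μ)
    (hinv : ∀ t, μ.map (fl Γ t) = μ) (ρ σ : ℝ) (B : Set (XG Γ)) : μ.real {x | x ∈ Low Γ μ ρ ∧ fl Γ σ x ∉ B} ≤ μ.real (Low Γ μ ρ \ B) := by
  obtain ⟨hfl, -⟩ := hXFL Γ
  have hc : Continuous (fl Γ σ) := hfl.cont.comp (continuous_const.prodMk continuous_id)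
  have hm : Measurable (fl Γ σ) := hc.measurable
  have h1 : {x | x ∈ Low Γ μ ρ ∧ fl Γ σ x ∉ B} ⊆ fl Γ σ ⁻¹' (Low Γ μ ρ \ B) := fun x hx => ⟨hFLI Γ μ ρ σ x hΓ hμ hinv hx.1, hx.2⟩
  have h2 : μ (fl Γ σ ⁻¹' (Low Γ μ ρ \ B)) ≤ μ (Low Γ μ ρ \ B) := by
    have h3 := Measure.le_map_apply (μ := μ) hm.aemeasurable (Low Γ μ ρ \ B)
    rwa [hinv σ] at h3
  exact ENNReal.toReal_mono (measure_ne_top _ _) ((measure_mono h1).trans h2)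

theorem FWD_abs {a b c x y z X Y Z : ℝ} (ha : 0 ≤ a ∧ a ≤ 1) (hb : 0 ≤ b ∧ b ≤ 1) (hc : 0 ≤ c ∧ c ≤ 1) (hx : |x| ≤ X) (hy : |y| ≤ Y) (hz : |z| ≤ Z) :
    |x * (b * c) + a * (y * c + b * z)| ≤ X + Y + Z := by
  have aux : ∀ {s u v : ℝ}, 0 ≤ u → u ≤ 1 → 0 ≤ v → v ≤ 1 → |s| * (u * v) ≤ |s| := by
    intro s u v h1 h2 h3 h4
    exact mul_le_of_le_one_right (abs_nonneg _) (mul_le_one₀ h2 h3 h4)
  calc |x * (b * c) + a * (y * c + b * z)| ≤ |x * (b * c)| + |a * (y * c + b * z)| := abs_add_le _ _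
    _ ≤ |x * (b * c)| + (|a * (y * c)| + |a * (b * z)|) := by
        rw [mul_add]
        gcongr
        exact abs_add_le _ _
    _ = |x| * (b * c) + (|y| * (a * c) + |z| * (a * b)) := by
        rw [abs_mul, abs_mul, abs_mul, abs_mul, abs_mul, abs_mul, abs_of_nonneg ha.1, abs_of_nonneg hb.1, abs_of_nonneg hc.1]
        ring
    _ ≤ |x| + (|y| + |z|) := add_le_add (aux hb.1 hb.2 hc.1 hc.2) (add_le_add (aux ha.1 ha.2 hc.1 hc.2) (aux ha.1 ha.2 hb.1 hb.2))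
    _ ≤ X + Y + Z := by linarith

/-- from a point of the quotient to a point of the group -/
theorem FWD_one (hXFL : EN.XFL_stmt) {Γ : Subgroup SL(2, ℝ)} {A : Finset SL(2, ℝ)} {a n σ : ℝ} {Ψ : SL(2, ℝ) → ℝ}
    (h1 : ∀ g, (∃ y ∈ A, ∃ γ : Γ, bq a a (a * Real.exp (-n)) (y⁻¹ * (γ : SL(2, ℝ)) * g)) → Ψ g = 1) (g : SL(2, ℝ)) (hg : fl Γ σ (mkX Γ g) ∈ BX Γ A a n) :
    Ψ (g * aM σ) = 1 := by
  obtain ⟨-, -, -, -, -, -, -, -, h2, -, h3, -⟩ := hXFL Γ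
  obtain ⟨y, hy, h, hh, he⟩ := hg
  rw [h2, h3] at he
  obtain ⟨γ, hγ⟩ := he
  apply h1
  refine ⟨y, hy, γ, ?_⟩
  rw [mul_assoc, hγ, inv_mul_cancel_left]
  exact hh

theorem FWD_len {Γ : Subgroup SL(2, ℝ)} {Cy : ℝ} (hY : ∀ (b k σ v0 : ℝ) (A : Finset SL(2, ℝ)) (g : SL(2, ℝ)), 0 < b → b ≤ 1 / 100 → 0 ≤ k →
    volume.real {v : ℝ | |v - v0| ≤ 4 * Real.exp (-σ) ∧ g * lM v * aM σ ∈ FW Γ A b (Real.exp (-k))} ≤ Cy * A.card * Real.exp (-(σ + k)))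
    (hCy : 0 < Cy) {A : Finset SL(2, ℝ)} {a n σ v0 R N : ℝ} {Ψ : SL(2, ℝ) → ℝ} (ha : 0 < a) (ha' : 16 * a ≤ 1 / 100) (hn : 0 ≤ n) (hA : (A.card : ℝ) ≤ Real.exp R) (hN : σ + n = N)
    (h1 : ∀ g, Ψ g ≠ 0 → ∃ y ∈ A, ∃ γ : Γ, bq (16 * a) (16 * a) (16 * a * Real.exp (-n)) (y⁻¹ * (γ : SL(2, ℝ)) * g)) (g : SL(2, ℝ)) (S : Set ℝ)
    (hS : ∀ v ∈ S, |v - v0| ≤ 4 * Real.exp (-σ) ∧ Ψ (g * lM v * aM σ) ≠ 0) : volume.real S ≤ Cy * Real.exp (R - N) := by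
  have h2 : S ⊆ {v : ℝ | |v - v0| ≤ 4 * Real.exp (-σ) ∧ g * lM v * aM σ ∈ FW Γ A (16 * a) (Real.exp (-n))} := fun v hv => ⟨(hS v hv).1, h1 _ (hS v hv).2⟩
  have h3 : volume {v : ℝ | |v - v0| ≤ 4 * Real.exp (-σ) ∧ g * lM v * aM σ ∈ FW Γ A (16 * a) (Real.exp (-n))} ≠ ⊤ := by
    have h4 : {v : ℝ | |v - v0| ≤ 4 * Real.exp (-σ) ∧ g * lM v * aM σ ∈ FW Γ A (16 * a) (Real.exp (-n))} ⊆ Icc (v0 - 4 * Real.exp (-σ)) (v0 + 4 * Real.exp (-σ)) := by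
      intro v hv
      have h5 := abs_le.1 hv.1
      exact ⟨by linarith [h5.1], by linarith [h5.2]⟩
    exact ((measure_mono h4).trans_lt (by rw [Real.volume_Icc]; exact ENNReal.ofReal_lt_top)).ne
  calc volume.real S ≤ volume.real {v : ℝ | |v - v0| ≤ 4 * Real.exp (-σ) ∧ g * lM v * aM σ ∈ FW Γ A (16 * a) (Real.exp (-n))} := measureReal_mono h2 h3
    _ ≤ Cy * A.card * Real.exp (-(σ + n)) := hY (16 * a) n σ v0 A g (by positivity) ha' hn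
    _ ≤ Cy * Real.exp R * Real.exp (-(σ + n)) := by gcongr
    _ = Cy * Real.exp (R - N) := by rw [mul_assoc, ← Real.exp_add, hN, ← sub_eq_add_neg]

theorem FWD_proof (hBXM : MS.BXM_stmt) (hSFP : SFP_stmt) (hCOV : COV_stmt) (hFLI : FLI_stmt) (hYVO : YVO_stmt) (hXFL : EN.XFL_stmt) : FWD_stmt := by
  intro Γ μ ρ hΓ hμ hinv hρ
  obtain ⟨a0, ha0, ha0', hB⟩ := hBXM Γ hΓ
  obtain ⟨Cy, hCy, hY⟩ := hYVO Γ hΓ
  refine ⟨min a0 (1 / 1600), lt_min ha0 (by norm_num), fun a ha haa => ?_⟩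
  obtain ⟨C, hC, hBX⟩ := hB a ha (haa.trans (min_le_left _ _))
  have h16 : 16 * a ≤ 1 / 100 := by
    have h1 := haa.trans (min_le_right _ _)
    linarith
  refine ⟨3 * C + Cy + 1, by linarith, fun η δ hη hδ => ?_⟩
  obtain ⟨n0, hn0⟩ := hCOV Γ μ ρ hΓ hμ hinv hρ a η (δ / 3) ha hη (by positivity)
  refine ⟨n0, fun p s0 hp hs => ?_⟩
  obtain ⟨A0, hA0, hm0⟩ := hn0 (3 * p) (by omega)
  obtain ⟨A1, hA1, hm1⟩ := hn0 (3 * p - s0) (by omega)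
  obtain ⟨A2, hA2, hm2⟩ := hn0 (2 * p) (by omega)
  have e0 : ((3 * p : ℕ) : ℝ) = 3 * (p : ℝ) := by push_cast; rfl
  have e1 : ((3 * p - s0 : ℕ) : ℝ) = 3 * (p : ℝ) - s0 := by
    rw [Nat.cast_sub (by omega)]
    push_cast
    rfl
  have e2 : ((2 * p : ℕ) : ℝ) = 2 * (p : ℝ) := by push_cast; rfl
  have hsp : (s0 : ℝ) ≤ p := by exact_mod_cast hs
  have hp0 : (0 : ℝ) ≤ p := Nat.cast_nonneg p
  rw [e0] at hA0 hm0
  rw [e1] at hA1 hm1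
  rw [e2] at hA2 hm2
  obtain ⟨Ψ0, Ψ0a, Ψ0n, Ψ0l, hSF0, hr0, hn0', hl0, hone0, hsup0⟩ := hBX (3 * (p : ℝ)) A0 (by positivity)
  obtain ⟨Ψ1, Ψ1a, Ψ1n, Ψ1l, hSF1, hr1, hn1', hl1, hone1, hsup1⟩ := hBX (3 * (p : ℝ) - s0) A1 (by linarith)
  obtain ⟨Ψ2, Ψ2a, Ψ2n, Ψ2l, hSF2, hr2, hn2', hl2, hone2, hsup2⟩ := hBX (2 * (p : ℝ)) A2 (by positivity)
  have hS1 := (hSFP Γ _ _ _ _ hSF1).2.2 (s0 : ℝ)
  have hS2 := (hSFP Γ _ _ _ _ hSF2).2.2 (p : ℝ)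
  have hS12 := (hSFP Γ _ _ _ _ hS1).1 _ _ _ _ hS2
  have hS := (hSFP Γ _ _ _ _ hSF0).1 _ _ _ _ hS12
  have hnz : ∀ g : SL(2, ℝ), Ψ0 g * (Ψ1 (g * aM s0) * Ψ2 (g * aM p)) ≠ 0 → Ψ0 g ≠ 0 ∧ Ψ1 (g * aM s0) ≠ 0 ∧ Ψ2 (g * aM p) ≠ 0 := by
    intro g h
    exact ⟨left_ne_zero_of_mul h, left_ne_zero_of_mul (right_ne_zero_of_mul h), right_ne_zero_of_mul (right_ne_zero_of_mul h)⟩
  have haM0 : ∀ g : SL(2, ℝ), g * aM 0 = g := by
    intro g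
    have h1 : aM 0 = 1 := by
      obtain ⟨hfl, -⟩ := hXFL Γ
      ext i j
      fin_cases i <;> fin_cases j <;> simp [aM]
    rw [h1, mul_one]
  refine ⟨_, _, _, _, hS, ?_, ?_, ?_, ?_, ?_⟩
  · intro g
    have h0 := hr0 g
    have h1 := hr1 (g * aM s0)
    have h2 := hr2 (g * aM p)
    exact ⟨mul_nonneg h0.1 (mul_nonneg h1.1 h2.1), mul_le_one₀ h0.2 (mul_nonneg h1.1 h2.1) (mul_le_one₀ h1.2 h2.1 h2.2)⟩
  · intro g
    have hy : |Real.exp (-(s0 : ℝ)) * Ψ1n (g * aM s0)| ≤ C := by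
      rw [abs_mul, Real.abs_exp]
      exact (mul_le_of_le_one_left (abs_nonneg _) (Real.exp_le_one_iff.2 (by linarith [Nat.cast_nonneg (α := ℝ) s0]))).trans (hn1' _)
    have hz : |Real.exp (-(p : ℝ)) * Ψ2n (g * aM p)| ≤ C := by
      rw [abs_mul, Real.abs_exp]
      exact (mul_le_of_le_one_left (abs_nonneg _) (Real.exp_le_one_iff.2 (by linarith))).trans (hn2' _)
    exact (FWD_abs (hr0 g) (hr1 _) (hr2 _) (hn0' g) hy hz).trans (by linarith)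
  · intro g
    have hy : |Real.exp (s0 : ℝ) * Ψ1l (g * aM s0)| ≤ C * Real.exp (3 * p) := by
      rw [abs_mul, Real.abs_exp]
      calc Real.exp (s0 : ℝ) * |Ψ1l (g * aM s0)| ≤ Real.exp (s0 : ℝ) * (C * Real.exp (3 * (p : ℝ) - s0)) := mul_le_mul_of_nonneg_left (hl1 _) (Real.exp_pos _).le
        _ = C * Real.exp (3 * p) := by
            rw [mul_left_comm, ← Real.exp_add]
            congr 2
            ring
    have hz : |Real.exp (p : ℝ) * Ψ2l (g * aM p)| ≤ C * Real.exp (3 * p) := by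
      rw [abs_mul, Real.abs_exp]
      calc Real.exp (p : ℝ) * |Ψ2l (g * aM p)| ≤ Real.exp (p : ℝ) * (C * Real.exp (2 * (p : ℝ))) := mul_le_mul_of_nonneg_left (hl2 _) (Real.exp_pos _).le
        _ = C * Real.exp (3 * p) := by
            rw [mul_left_comm, ← Real.exp_add]
            congr 2
            ring
    refine (FWD_abs (hr0 g) (hr1 _) (hr2 _) (hl0 g) hy hz).trans ?_
    have h1 : 0 ≤ (Cy + 1) * Real.exp (3 * (p : ℝ)) := by positivity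
    nlinarith
  · -- the mass
    have hsub : Low Γ μ ρ \ one Γ (fun g => Ψ0 g * (Ψ1 (g * aM s0) * Ψ2 (g * aM p))) ⊆ {x | x ∈ Low Γ μ ρ ∧ fl Γ 0 x ∉ BX Γ A0 a (3 * (p : ℝ))} ∪
        ({x | x ∈ Low Γ μ ρ ∧ fl Γ s0 x ∉ BX Γ A1 a (3 * (p : ℝ) - s0)} ∪ {x | x ∈ Low Γ μ ρ ∧ fl Γ p x ∉ BX Γ A2 a (2 * (p : ℝ))}) := by
      intro x hx
      by_contra hcon
      rw [mem_union, mem_union, not_or, not_or] at hcon
      obtain ⟨c0, c1, c2⟩ := hcon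
      have d0 : fl Γ 0 x ∈ BX Γ A0 a (3 * (p : ℝ)) := by
        by_contra h
        exact c0 ⟨hx.1, h⟩
      have d1 : fl Γ s0 x ∈ BX Γ A1 a (3 * (p : ℝ) - s0) := by
        by_contra h
        exact c1 ⟨hx.1, h⟩
      have d2 : fl Γ p x ∈ BX Γ A2 a (2 * (p : ℝ)) := by
        by_contra h
        exact c2 ⟨hx.1, h⟩
      obtain ⟨g, rfl⟩ := (hXFL Γ).2.2.2.2.1 x
      apply hx.2
      refine ⟨g, rfl, ?_⟩
      have f0 := FWD_one hXFL hone0 g d0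
      rw [haM0] at f0
      show Ψ0 g * (Ψ1 (g * aM s0) * Ψ2 (g * aM p)) = 1
      rw [f0, FWD_one hXFL hone1 g d1, FWD_one hXFL hone2 g d2]
      norm_num
    calc μ.real (Low Γ μ ρ \ one Γ (fun g => Ψ0 g * (Ψ1 (g * aM s0) * Ψ2 (g * aM p)))) ≤ _ := measureReal_mono hsub (measure_ne_top _ _)
      _ ≤ _ := measureReal_union_le _ _
      _ ≤ δ / 3 + (δ / 3 + δ / 3) := by
          refine add_le_add ((FWD_mass hXFL hFLI hΓ hμ hinv ρ 0 _).trans hm0) ((measureReal_union_le _ _).trans (add_le_add ?_ ?_))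
          · exact (FWD_mass hXFL hFLI hΓ hμ hinv ρ s0 _).trans hm1
          · exact (FWD_mass hXFL hFLI hΓ hμ hinv ρ p _).trans hm2
      _ = δ := by ring
  · intro g
    have hC3 : ∀ x : ℝ, Cy * Real.exp x ≤ (3 * C + Cy + 1) * Real.exp x := fun x => mul_le_mul_of_nonneg_right (by linarith) (Real.exp_pos x).le
    refine ⟨?_, fun v0 => ?_, fun v0 => ?_⟩
    · refine (FWD_len hY hCy (v0 := 0) (σ := 0) ha h16 (by positivity) hA0 (by ring : (0 : ℝ) + 3 * p = 3 * p) hsup0 g _ ?_).trans (hC3 _)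
      rintro v ⟨hv, hv2⟩
      refine ⟨?_, ?_⟩
      · rw [neg_zero, Real.exp_zero, sub_zero, abs_le]
        exact ⟨by linarith [hv.1], by linarith [hv.2]⟩
      · rw [haM0]
        exact (hnz _ hv2).1
    · refine (FWD_len hY hCy (v0 := v0) (σ := s0) ha h16 (by linarith) hA1 (by ring : (s0 : ℝ) + (3 * p - s0) = 3 * p) hsup1 g _ ?_).trans (hC3 _)
      rintro v ⟨⟨-, hv2⟩, hv⟩
      refine ⟨?_, (hnz _ hv2).2.1⟩
      rw [abs_le]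
      have h1 := Real.exp_pos (-(s0 : ℝ))
      exact ⟨by linarith [hv.1], by linarith [hv.2]⟩
    · refine (FWD_len hY hCy (v0 := v0) (σ := p) ha h16 (by positivity) hA2 (by ring : (p : ℝ) + 2 * p = 3 * p) hsup2 g _ ?_).trans (hC3 _)
      rintro v ⟨⟨-, hv2⟩, hv⟩
      refine ⟨?_, (hnz _ hv2).2.2⟩
      rw [abs_le]
      exact ⟨by linarith [hv.1], by linarith [hv.2]⟩

end

end Pool.Agent.IR
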